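import Mathlib

namespace Pool.Agent.Results.MP_8ae77a_co.Counter

open Finset SimpleGraph

/-- A semilabeled binary tree of size `n`. -/
structure BT (n : ℕ) where
  N : ℕ
  G : SimpleGraph (Fin N)
  tree : G.IsTree
  deg : ∀ v, (G.neighborSet v).ncard = 1 ∨ (G.neighborSet v).ncard = 3
  l : Fin n → Fin N
  inj : l.Injective
  leaf : ∀ v, (∃ i, l i = v) ↔ (G.neighborSet v).ncard = 1

/-- The partitions of the labels obtained by deleting a set of edges. -/
def Ind {n : ℕ} (T : BT n) (P : Setoid (Fin n)) : Prop :=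
  ∃ S, ∀ a b, P a b ↔ (T.G.deleteEdges S).Reachable (T.l a) (T.l b)

/-- The number of common induced partitions with exactly `k` classes. -/
noncomputable def com {t n : ℕ} (T : Fin t → BT n) (k : ℕ) : ℕ :=
  {P : Setoid (Fin n) | (∀ i, Ind (T i) P) ∧ Nat.card (Quotient P) = k}.ncard

/-- `s^{(t)}_{n,k}`. -/
noncomputable def s (t n k : ℕ) : ℕ := sInf (Set.range fun T : Fin t → BT n => com T k)

section
variable {V : Type} {G : SimpleGraph V}

def R (G : SimpleGraph V) (u v y : V) : Prop := (G.deleteEdges {s(u, v)}).Reachable u y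

theorem ext {u v x y : V} (h : R G u v x) (a : G.Adj x y) (e : s(x, y) ≠ s(u, v)) : R G u v y :=
  h.trans (Adj.reachable (by simpa using ⟨a, by simpa using e⟩))

theorem cover {u y : V} (v : V) (h : G.Reachable u y) : R G u v y ∨ R G v u y := by
  induction (reachable_iff_reflTransGen _ _).1 h with
  | refl => exact Or.inl .rfl
  | @tail x y p a ih =>
    by_cases e : s(x, y) = s(u, v)
    · obtain ⟨-, rfl⟩ | ⟨-, rfl⟩ := Sym2.eq_iff.1 e
      exacts [Or.inr .rfl, Or.inl .rfl]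
    · exact (ih ((reachable_iff_reflTransGen _ _).2 p)).imp (ext · a e)
        (ext · a (by rwa [Sym2.eq_swap (a := v)]))

theorem down {u v y : V} (h : R G u v y) : y = u ∨ ∃ x, G.Adj u x ∧ x ≠ v ∧ R G x u y := by
  induction (reachable_iff_reflTransGen _ _).1 h with
  | refl => exact Or.inl rfl
  | @tail z y p a ih =>
    rw [deleteEdges_adj] at a
    by_cases e : y = u
    · exact Or.inl e
    by_cases q : z = u
    · exact Or.inr ⟨y, q ▸ a.1, fun r => a.2 (by simp [q, r]), .rfl⟩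
    obtain ⟨x, b, c, d⟩ := (ih ((reachable_iff_reflTransGen _ _).2 p)).resolve_left q
    exact Or.inr ⟨x, b, c, ext d a.1 (by simp [e, q])⟩

theorem br (h : G.IsAcyclic) {u x : V} (a : G.Adj u x) : ¬ R G x u u :=
  isAcyclic_iff_forall_adj_isBridge.1 h a.symm

theorem sub (h : G.IsAcyclic) {u v x y : V} (a : G.Adj u x) (e : x ≠ v) (r : R G x u y) :
    R G u v y := by
  induction (reachable_iff_reflTransGen _ _).1 r with
  | refl => exact ext .rfl a (by simp [e, a.ne'])
  | @tail z y p b ih =>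
    have p := (reachable_iff_reflTransGen _ _).2 p
    have : z ≠ u := fun q => br h a (q ▸ p)
    have : y ≠ u := fun q => br h a (q ▸ r)
    exact ext (ih p) (deleteEdges_adj.1 b).1 (by simp [*])

theorem cut (L : Set V) (h : ∀ v ∈ L, ∀ x y, G.Adj v x → G.Adj v y → x = y) {a b : V}
    (p : G.Walk a b) (hp : p.IsPath) (ha : a ∉ L) (hb : b ∉ L) :
    (G.deleteEdges {e | ∃ v ∈ L, v ∈ e}).Reachable a b := by
  induction p with
  | nil => rfl
  | @cons a x b e p ih =>
    have : x ∉ L := fun q => by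
      cases p with
      | nil => exact hb q
      | cons f p => simp [h x q _ _ e.symm f] at hp
    refine (Adj.reachable ?_).trans (ih hp.of_cons this hb)
    simp only [deleteEdges_adj, e, Set.mem_ofPred_eq, Sym2.mem_iff]
    grind

end

variable {n : ℕ}

def Sp (T : BT n) (X : Finset (Fin n)) : Prop :=
  ∃ S, ∀ a b, (a ∈ X ↔ b ∈ X) ↔ (T.G.deleteEdges S).Reachable (T.l a) (T.l b)

theorem bal (T : BT n) (P : Finset (Fin n)) (h : 2 ≤ #P) :
    ∃ X, Sp T X ∧ #P ≤ 3 * #(P ∩ X) ∧ #P ≤ 3 * #(P \ X) := by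
  classical
  let X : Fin T.N × Fin T.N → Finset (Fin n) := fun d => {a | R T.G d.1 d.2 (T.l a)}
  have cv := fun u v y => cover (G := T.G) v (T.tree.connected u y)
  obtain ⟨⟨u, v⟩, d, m⟩ := exists_min_image {d | T.G.Adj d.1 d.2 ∧ #P ≤ 3 * #(P ∩ X d)}
    (fun d => #{y | R T.G d.1 d.2 y}) (by
      obtain ⟨a, -⟩ := card_pos.1 (show 0 < #P by omega)
      obtain ⟨v, e⟩ := Set.nonempty_of_ncard_ne_zero (((T.leaf _).1 ⟨a, rfl⟩).trans_ne one_ne_zero)
      have : #P ≤ #(P ∩ X (T.l a, v)) + #(P ∩ X (v, T.l a)) :=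
        (card_le_card fun b q => by simpa [X, q] using cv _ _ _).trans (card_union_le _ _)
      by_cases q : #P ≤ 3 * #(P ∩ X (T.l a, v))
      · exact ⟨(T.l a, v), by simpa using ⟨e, q⟩⟩
      · exact ⟨(v, T.l a), by simpa using ⟨e.symm, by omega⟩⟩)
  simp only [mem_filter, mem_univ, true_and] at d m
  refine ⟨X (u, v), ⟨{s(u, v)}, fun a b => ?_⟩, d.2, ?_⟩
  · simp only [X, mem_filter, mem_univ, true_and]
    refine ⟨fun q => ?_, fun q => ⟨(·.trans q), (·.trans q.symm)⟩⟩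
    by_cases r : R T.G u v (T.l a)
    · exact r.symm.trans (q.1 r)
    · rw [Sym2.eq_swap]
      exact ((cv u v _).resolve_left r).symm.trans ((cv u v _).resolve_left (mt q.2 r))
  have c := card_sdiff_add_card_inter P (X (u, v))
  have g := T.deg u
  have lf := T.leaf u
  rw [Set.ncard_eq_toFinset_card', ← neighborFinset_def] at g lf
  have nb := card_erase_of_mem ((mem_neighborFinset _ _ _).2 d.1)
  have w : P ∩ X (u, v) ⊆ ({a | T.l a = u} : Finset _) ∪
      ((T.G.neighborFinset u).erase v).biUnion fun x => P ∩ X (x, u) := fun a q => by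
    simp only [X, mem_inter, mem_filter, mem_univ, true_and, mem_union, mem_biUnion, mem_erase,
      mem_neighborFinset] at q ⊢
    exact (down q.2).imp_right fun ⟨x, a, b, c⟩ => ⟨x, ⟨b, a⟩, q.1, c⟩
  have w := (card_le_card w).trans ((card_union_le _ _).trans (add_le_add le_rfl card_biUnion_le))
  have z : ∀ x ∈ (T.G.neighborFinset u).erase v, 3 * #(P ∩ X (x, u)) ≤ #P := fun x q => by
    simp only [mem_erase, mem_neighborFinset] at q
    by_contra r
    refine (m (x, u) ⟨q.2.symm, by omega⟩).not_gt (card_lt_card ⟨fun y => ?_, fun y => ?_⟩)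
    · simpa using sub T.tree.isAcyclic q.2 q.1
    · exact br T.tree.isAcyclic q.2 (by simpa using @y u (by simpa using .rfl))
  have z := sum_le_card_nsmul _ _ _ z
  rw [← mul_sum, nb, smul_eq_mul] at z
  by_cases q : ∃ i, T.l i = u
  · have : #{a | T.l a = u} ≤ 1 := card_le_one.2 fun a x b y => T.inj (by simp_all)
    rw [lf.1 q] at z
    omega
  · have : #{a | T.l a = u} = 0 := by simpa using q
    rw [g.resolve_left (mt lf.2 q)] at z
    omega

theorem many (t : ℕ) : ∀ T : Fin t → BT n, 2 * 3 ^ t ≤ n → ∃ P Q : Finset (Fin n),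
    n ≤ 3 ^ t * #P ∧ n ≤ 3 ^ t * #Q ∧ ∀ i, ∃ X, Sp (T i) X ∧ P ⊆ X ∧ Disjoint Q X := by
  induction t with
  | zero => exact fun _ _ => ⟨univ, univ, by simp, by simp, fun i => i.elim0⟩
  | succ t ih =>
    intro T h
    obtain ⟨P, Q, a, b, c⟩ := ih (fun i => T i.succ) (by omega)
    obtain ⟨X, d, e, f⟩ := bal (T 0) P (by have := Nat.pow_pos (n := t) three_pos; nlinarith [pow_succ 3 t])
    have g := card_sdiff_add_card_inter Q X
    have k : ∀ Y, Sp (T 0) Y → #P ≤ 3 * #(P ∩ Y) → #Q ≤ 3 * #(Q \ Y) → ∃ P Q : Finset (Fin n),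
        n ≤ 3 ^ (t + 1) * #P ∧ n ≤ 3 ^ (t + 1) * #Q ∧
          ∀ i, ∃ X, Sp (T i) X ∧ P ⊆ X ∧ Disjoint Q X := fun Y x y z =>
      ⟨P ∩ Y, Q \ Y, a.trans (by rw [pow_succ, mul_assoc]; gcongr),
        b.trans (by rw [pow_succ, mul_assoc]; gcongr),
        Fin.forall_fin_succ.2 ⟨⟨Y, x, inter_subset_right, sdiff_disjoint⟩, fun i =>
          (c i).imp fun _ h => ⟨h.1, inter_subset_left.trans h.2.1, h.2.2.mono_left sdiff_subset⟩⟩⟩
    by_cases q : #Q ≤ 3 * #(Q \ X)
    · exact k X d e q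
    · exact k Xᶜ (d.imp fun S h a b => by simp [← h, not_iff_not]) (by rwa [← sdiff_eq_inter_compl])
        (by rw [sdiff_compl, inf_eq_inter]; omega)

def f (Z A : Finset (Fin n)) (i : Fin n) : Fin n ⊕ Bool := if i ∈ Z then .inl i else .inr (i ∈ A)

theorem ind (T : BT n) (X Z A : Finset (Fin n)) (h : Sp T X) (e : ∀ i ∉ Z, i ∈ X ↔ i ∈ A) :
    Ind T (Setoid.ker (f Z A)) := by
  obtain ⟨S, h⟩ := h
  refine ⟨S ∪ {e | ∃ v ∈ T.l '' Z, v ∈ e}, fun a b => ?_⟩
  have iso : ∀ a ∈ Z, ∀ b, (T.G.deleteEdges (S ∪ {e | ∃ v ∈ T.l '' Z, v ∈ e})).Reachable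
      (T.l a) (T.l b) → a = b := fun a x b ⟨p⟩ => T.inj (by
    generalize hu : T.l a = u, T.l b = v at p
    cases p with
    | nil => rfl
    | cons q _ => exact ((deleteEdges_adj.1 q).2 (Or.inr ⟨_, ⟨a, x, hu⟩, by simp⟩)).elim)
  rw [Setoid.ker_def, f, f]
  split_ifs with x y y
  · exact ⟨fun q => by rw [Sum.inl.inj q], fun q => by rw [iso a x b q]⟩
  · exact iff_of_false nofun fun q => y (iso a x b q ▸ x)
  · exact iff_of_false nofun fun q => x (iso b y a q.symm ▸ y)
  · rw [Sum.inr.injEq, decide_eq_decide, ← e a x, ← e b y, h]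
    refine ⟨fun q => ?_, fun q => q.mono (deleteEdges_anti Set.subset_union_left)⟩
    rw [← deleteEdges_deleteEdges]
    obtain ⟨p, hp⟩ := q.exists_isPath
    refine cut _ ?_ p hp (by simpa [T.inj.eq_iff] using x) (by simpa [T.inj.eq_iff] using y)
    rintro _ ⟨c, -, rfl⟩ u v g k
    exact (Set.ncard_le_one (Set.toFinite _)).1 ((T.leaf _).1 ⟨c, rfl⟩).le u
      (deleteEdges_adj.1 g).1 v (deleteEdges_adj.1 k).1

theorem cl (Z A : Finset (Fin n)) (B : Finset Bool) (h : ∀ b, b ∈ B ↔ ∃ i ∉ Z, decide (i ∈ A) = b) :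
    Nat.card (Quotient (Setoid.ker (f Z A))) = #Z + #B := by
  rw [Nat.card_congr (Setoid.quotientKerEquivRange _), ← card_disjSum, ← Nat.card_eq_finsetCard]
  congr 2
  ext (i | b) <;> simp only [f, Set.mem_range, mem_coe, inl_mem_disjSum, inr_mem_disjSum] <;> grind

theorem main (t n j : ℕ) (ht : 1 ≤ t) (hj : 2 ≤ j) (h : j * 3 ^ t ≤ n) (T : Fin t → BT n) :
    n.choose (n - j - 1) < com T (n - j) := by
  classical
  have t3 : 3 ^ 1 ≤ 3 ^ t := Nat.pow_le_pow_right (by decide) ht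
  obtain ⟨P, Q, a, b, c⟩ := many t T (by nlinarith)
  obtain ⟨A, a1, a2⟩ := exists_subset_card_eq (show 2 ≤ #P by nlinarith)
  obtain ⟨B, b1, b2⟩ := exists_subset_card_eq (show j ≤ #Q by nlinarith)
  have hn : j + 2 ≤ n := by nlinarith
  have d : Disjoint B A := by
    obtain ⟨X, -, x, y⟩ := c ⟨0, ht⟩
    exact y.mono b1 (a1.trans x)
  obtain ⟨p, hp, p', hp', pp⟩ := one_lt_card.1 (show 1 < #A by omega)
  obtain ⟨q, hq, q', hq', qq⟩ := one_lt_card.1 (show 1 < #B by omega)
  have d' := disjoint_left.1 d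
  have two : ∀ Z ∈ powersetCard (n - j - 1) (univ : Finset (Fin n)), 1 < #Zᶜ := fun Z z => by
    rw [card_compl, (mem_powersetCard.1 z).2, Fintype.card_fin]; omega
  have key : insert (Setoid.ker (f (B ∪ A)ᶜ A)) ((fun Z => Setoid.ker (f Z univ)) ''
      ↑(powersetCard (n - j - 1) (univ : Finset (Fin n)))) ⊆
      {P : Setoid (Fin n) | (∀ i, Ind (T i) P) ∧ Nat.card (Quotient P) = n - j} := by
    rintro _ (rfl | ⟨Z, z, rfl⟩)
    · refine ⟨fun i => ?_, ?_⟩
      · obtain ⟨X, x, y, z⟩ := c i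
        have := disjoint_left.1 z
        refine ind _ X _ _ x fun i g => ⟨fun r => ?_, fun r => y (a1 r)⟩
        exact (mem_union.1 (not_not.1 (mt mem_compl.2 g))).resolve_left fun e => this (b1 e) r
      · rw [cl _ _ univ (by rintro (_ | _); exacts [by simpa using ⟨q, by grind⟩, by simpa using ⟨p, by grind⟩]),
          card_compl, card_union_of_disjoint d]
        simp
        omega
    · refine ⟨fun i => ind _ univ _ _ ⟨∅, fun a b => ?_⟩ (by simp), ?_⟩
      · simpa using (T i).tree.connected _ _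
      · obtain ⟨x, y⟩ := card_pos.1 (zero_lt_one.trans (two Z z))
        rw [cl _ _ {true} (by simp at y ⊢; exact ⟨x, y⟩), (mem_powersetCard.1 z).2, card_singleton]
        omega
  have : Finite (Setoid (Fin n)) := .of_injective (fun P => P.r) fun _ _ e =>
    Setoid.ext fun a b => iff_of_eq (congrFun (congrFun e a) b)
  refine lt_of_lt_of_le ?_ (Set.ncard_le_ncard key)
  rw [Set.ncard_insert_of_notMem, Set.InjOn.ncard_image, Set.ncard_coe_finset, card_powersetCard]
  · simp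
  · intro Z z W w e
    refine eq_of_subset_of_card_le (fun i y => by_contra fun x => ?_)
      ((mem_powersetCard.1 w).2.trans (mem_powersetCard.1 z).2.symm).le
    obtain ⟨k, u, v⟩ := exists_mem_ne (two W w) i
    have := Setoid.ext_iff.1 e i k
    simp only [Setoid.ker_def, f] at this
    have := mem_compl.1 u
    grind
  · rintro ⟨Z, -, e⟩
    have e := Setoid.ext_iff.1 e
    have := e p p'
    have := e q q'
    have := e p q
    have : p ∉ (B ∪ A)ᶜ ∧ p' ∉ (B ∪ A)ᶜ ∧ q ∉ (B ∪ A)ᶜ ∧ q' ∉ (B ∪ A)ᶜ := by simp [*]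
    simp only [Setoid.ker_def, f] at *
    grind

theorem result : (∀ t n j : ℕ, 1 ≤ t → 2 ≤ j → j * 3 ^ t ≤ n → ∀ T : Fin t → BT n,
      n.choose (n - j - 1) < com T (n - j)) ∧
    ¬ ∃ t ≥ 2, ∃ f : ℕ → ℕ, (fun n => (f n : ℝ)) =o[Filter.atTop] (fun n => (n : ℝ)) ∧
      ∀ n k, 1 ≤ k → k < n - f n → s t n k = n.choose (k - 1) := by
  refine ⟨main, fun ⟨t, ht, f, o, H⟩ => ?_⟩
  obtain ⟨n, a, b⟩ := ((o.bound (c := 1 / (2 * 3 ^ t)) (by positivity)).and
    (Filter.eventually_ge_atTop (4 * 3 ^ t))).exists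
  rw [Real.norm_natCast, Real.norm_natCast, one_div, ← div_eq_inv_mul, le_div_iff₀ (by positivity)] at a
  have a : f n * (2 * 3 ^ t) ≤ n := by exact_mod_cast a
  have t3 : 3 ^ 1 ≤ 3 ^ t := Nat.pow_le_pow_right (by decide) (by omega)
  have c : (f n + 2) * 3 ^ t ≤ n := by nlinarith
  have d : f n + 2 < n := by nlinarith
  have e := H n (n - (f n + 2)) (by omega) (by omega)
  have p := Nat.choose_pos (show n - (f n + 2) - 1 ≤ n by omega)
  obtain ⟨T, h⟩ := Nat.sInf_mem (Nat.nonempty_of_pos_sInf (e ▸ p : 0 < s t n _))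
  exact (main t n _ (by omega) (by omega) c T).ne (e.symm.trans h.symm)

end Pool.Agent.Results.MP_8ae77a_co.Counter
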